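import Pool.Agent.Helper77.OC.St

set_option autoImplicit false

namespace Pool.Agent.Helper45.OC

open Pool.Agent.Helper77.OC Pool.Agent.Helper77.HY Pool.Agent.Helper35.PM

theorem hC1 (hExt : StExt) : StC1 := by
  intro V _ _ G p S W hSW hp hS4 hind hdW hlow hsum h3 L A hL
  have ha : ∀ v, ∃ a, L v ∩ A = {a} := fun v => Finset.card_eq_one.1 (hL v).1
  choose a ha using ha
  have haL : ∀ v, a v ∈ L v ∧ a v ∈ A := by
    intro v
    have : a v ∈ L v ∩ A := by rw [ha v]; simp
    exact Finset.mem_inter.1 this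
  have hcard : ∀ v, (L v).card = 3 := by
    intro v
    have := Finset.card_inter_add_card_sdiff (L v) A
    rw [(hL v).1, (hL v).2] at this
    omega
  have hcol : ColOn G S L a := ⟨fun v _ => (haL v).1, fun u hu v hv huv => absurd huv (hind u hu v hv)⟩
  have hlost1 : ∀ r, lost G S L a r ≤ 1 := by
    intro r
    unfold lost
    calc _ ≤ ({a r} : Set ℕ).ncard := by
          refine Set.ncard_le_ncard ?_ (Set.finite_singleton _)
          rintro γ ⟨hγ, u, hu, hru, rfl⟩
          have : a u ∈ L r ∩ A := Finset.mem_inter.2 ⟨hγ, (haL u).2⟩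
          rw [ha r] at this
          simpa using this
      _ = 1 := Set.ncard_singleton _
  have hlost0 : ∀ r, dg G r S = 0 → lost G S L a r = 0 := by
    intro r hr
    unfold dg at hr
    rw [Set.ncard_eq_zero (Set.toFinite _)] at hr
    unfold lost
    rw [Set.ncard_eq_zero (Set.Finite.subset (L r).finite_toSet (fun γ h => h.1))]
    ext γ
    simp only [Set.mem_ofPred_eq, Set.mem_empty_iff_false, iff_false, not_and, not_exists]
    intro _ u hu hru _
    have : u ∈ ({u : V | u ∈ S ∧ G.Adj r u} : Set V) := ⟨hu, hru⟩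
    rw [hr] at this
    exact this
  have hloc : ∀ r, lost G S L a r + (dg G r S - 1) ≤ dg G r S := by
    intro r
    have h1 := hlost1 r
    have h0 := hlost0 r
    rcases Nat.eq_zero_or_pos (dg G r S) with h | h
    · rw [h0 h, h]
    · omega
  have heN : eN G S = 0 := by
    unfold eN
    rw [Set.ncard_eq_zero (Set.toFinite _)]
    ext e
    simp only [Set.mem_ofPred_eq, Set.mem_empty_iff_false, iff_false, not_and]
    induction e using Sym2.ind with
    | _ u v =>
      intro huv h
      exact hind u (h u (Sym2.mem_mk_left u v)) v (h v (Sym2.mem_mk_right u v)) huv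
  have hdS : df G S = 4 := by
    unfold df
    rw [heN, hS4]
    norm_num
  obtain ⟨c', -, hc'⟩ := hExt V G p L S W a hSW hp hcard hcol (by
    intro U hSU hUW
    have hle : (∑ r ∈ U \ S, (lost G S L a r : ℤ)) + ∑ r ∈ U \ S, ((dg G r S - 1 : ℕ) : ℤ)
        ≤ ∑ r ∈ U \ S, (dg G r S : ℤ) := by
      rw [← Finset.sum_add_distrib]
      refine Finset.sum_le_sum fun r _ => ?_
      exact_mod_cast hloc r
    have hnn : (0 : ℤ) ≤ ∑ r ∈ U \ S, ((dg G r S - 1 : ℕ) : ℤ) :=
      Finset.sum_nonneg fun r _ => by positivity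
    have key : (4 : ℤ) ≤ df G U + ∑ r ∈ U \ S, ((dg G r S - 1 : ℕ) : ℤ) := by
      rcases eq_or_ne U W with rfl | hne
      · have : (2 : ℤ) ≤ ∑ r ∈ U \ S, ((dg G r S - 1 : ℕ) : ℤ) := by exact_mod_cast hsum
        linarith
      · have hss : U ⊂ W := lt_of_le_of_ne hUW hne
        have h := hlow U hSU hss
        rcases eq_or_ne (df G U) 3 with h' | h'
        · obtain ⟨r, hrU, hrS, hr2⟩ := h3 U hSU hss h'
          have : (1 : ℤ) ≤ ∑ r ∈ U \ S, ((dg G r S - 1 : ℕ) : ℤ) := by
            have h1 : ((dg G r S - 1 : ℕ) : ℤ) ≤ ∑ r ∈ U \ S, ((dg G r S - 1 : ℕ) : ℤ) :=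
              Finset.single_le_sum (f := fun r => ((dg G r S - 1 : ℕ) : ℤ))
                (fun r _ => by positivity) (Finset.mem_sdiff.2 ⟨hrU, hrS⟩)
            have h2 : (1 : ℤ) ≤ ((dg G r S - 1 : ℕ) : ℤ) := by
              have : 1 ≤ dg G r S - 1 := by omega
              exact_mod_cast this
            linarith
          linarith
        · have : (4 : ℤ) ≤ df G U := by omega
          linarith
    rw [hdS]
    linarith)
  exact ⟨c', hc'⟩

end Pool.Agent.Helper45.OC
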